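import Pool.Agent.H161R4.Step
set_option autoImplicit false

namespace Pool.Agent.H161R4

open Finset Module

variable {m : ℕ}

/-- `g` is invariant under `a` -/
def Inv (g : V m → ZMod 2) (a : V m) : Prop := ∀ x, g (x + a) = g x

/-- the periods -/
def periods (g : V m → ZMod 2) : Submodule (ZMod 2) (V m) where
  carrier := {a | Inv g a}
  add_mem' := by
    intro a b ha hb x
    rw [← add_assoc, hb, ha]
  zero_mem' := by
    intro x
    rw [add_zero]
  smul_mem' := by
    intro c a ha x
    have hc : ∀ c : ZMod 2, c = 0 ∨ c = 1 := by decide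
    rcases hc c with rfl | rfl
    · rw [zero_smul, add_zero]
    · rw [one_smul, ha]

/-- functions `f` with `f + f₀` invariant under a subspace `Z` of small codimension -/
theorem count_Z (F : Finset (V m → ZMod 2)) (f₀ : V m → ZMod 2) (Z : Submodule (ZMod 2) (V m))
    (K N : ℕ) (hN : 1 ≤ N) (hK : finrank (ZMod 2) (V m ⧸ Z) ≤ K)
    (hD : ∀ a, (F.image (D a)).card ≤ N) (hF : ∀ f ∈ F, ∀ z ∈ Z, Inv (f + f₀) z) :
    F.card ≤ 2 * N ^ K := by
  classical
  set k := finrank (ZMod 2) (V m ⧸ Z) with hk
  let B : Basis (Fin k) (ZMod 2) (V m ⧸ Z) := Module.finBasis (ZMod 2) (V m ⧸ Z)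
  have hb : ∀ j, ∃ b : V m, Z.mkQ b = B j := fun j => Submodule.mkQ_surjective Z (B j)
  choose b hb using hb
  let Φ : (V m → ZMod 2) → ZMod 2 × (Fin k → (V m → ZMod 2)) := fun f => (f 0, fun j => D (b j) f)
  have hinj : Set.InjOn Φ (F : Set (V m → ZMod 2)) := by
    intro f hf f' hf' h
    have h0 : f 0 = f' 0 := congrArg Prod.fst h
    have h1 : ∀ j, D (b j) f = D (b j) f' := fun j => congrFun (congrArg Prod.snd h) j
    set g : V m → ZMod 2 := f + f' with hg
    have hper : periods g = ⊤ := by
      rw [eq_top_iff]
      intro x _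
      have hZ : Z ≤ periods g := by
        intro z hz y
        have e1 := hF f hf z hz y
        have e2 := hF f' hf' z hz y
        simp only [Pi.add_apply] at e1 e2
        rw [hg]
        simp only [Pi.add_apply]
        have t1 := two_z (f₀ (y + z))
        have t2 := two_z (f₀ y)
        linear_combination e1 + e2 - t1 + t2
      have hbj : ∀ j, b j ∈ periods g := by
        intro j y
        have e1 := congrFun (h1 j) y
        simp only [D] at e1
        rw [hg]
        simp only [Pi.add_apply]
        have t1 := two_z (f y)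
        have t2 := two_z (f' (y + b j))
        linear_combination e1 + t2 - t1
      have hx : x - ∑ j, (B.repr (Z.mkQ x)) j • b j ∈ Z := by
        rw [← Submodule.Quotient.mk_eq_zero, ← Submodule.mkQ_apply, map_sub, map_sum]
        simp only [map_smul, hb]
        rw [B.sum_repr, sub_self]
      have hsum : ∑ j, (B.repr (Z.mkQ x)) j • b j ∈ periods g :=
        Submodule.sum_mem _ fun j _ => Submodule.smul_mem _ _ (hbj j)
      have := (periods g).add_mem (hZ hx) hsum
      simpa using this
    funext x
    have hx : x ∈ periods g := by rw [hper]; trivial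
    have h2 := hx 0
    rw [zero_add, hg] at h2
    simp only [Pi.add_apply] at h2
    rw [h0, two_z] at h2
    have h4 : ∀ a b : ZMod 2, a + b = 0 → a = b := by decide
    exact h4 _ _ h2
  have h1 : (F.image Φ).card = F.card := Finset.card_image_of_injOn hinj
  rw [← h1]
  have hsub : F.image Φ ⊆ (Finset.univ : Finset (ZMod 2)) ×ˢ
      Fintype.piFinset (fun j => F.image (D (b j))) := by
    intro p hp
    obtain ⟨f, hf, rfl⟩ := Finset.mem_image.1 hp
    rw [Finset.mem_product]
    refine ⟨Finset.mem_univ _, ?_⟩
    rw [Fintype.mem_piFinset]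
    intro j
    exact Finset.mem_image_of_mem _ hf
  refine (Finset.card_le_card hsub).trans ?_
  rw [Finset.card_product, Fintype.card_piFinset, Finset.card_univ, ZMod.card]
  refine Nat.mul_le_mul_left _ ?_
  calc ∏ j, (F.image (D (b j))).card ≤ ∏ _j : Fin k, N := Finset.prod_le_prod' fun j _ => hD _
    _ = N ^ k := by rw [Finset.prod_const, Finset.card_univ, Fintype.card_fin]
    _ ≤ N ^ K := Nat.pow_le_pow_right hN hK

/-- the subspace orthogonal to a finite set -/
def orthT (T : Finset (V m)) : Submodule (ZMod 2) (V m) :=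
  LinearMap.ker (Matrix.mulVecLin (Matrix.of (fun (l : T) (j : Fin m) => (l : V m) j)))

theorem mem_orthT {T : Finset (V m)} {z : V m} : z ∈ orthT T ↔ ∀ l ∈ T, l ⬝ᵥ z = 0 := by
  unfold orthT
  rw [LinearMap.mem_ker, Matrix.mulVecLin_apply]
  constructor
  · intro h l hl
    exact congrFun h ⟨l, hl⟩
  · intro h
    funext l
    exact h l.1 l.2

theorem codim_orthT (T : Finset (V m)) :
    finrank (ZMod 2) (V m ⧸ orthT T) ≤ T.card := by
  classical
  unfold orthT
  rw [LinearEquiv.finrank_eq (LinearMap.quotKerEquivRange _)]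
  refine (Submodule.finrank_le _).trans ?_
  rw [Module.finrank_fintype_fun_eq_card]
  simp

/-- number of small subsets -/
theorem card_small {α : Type} [DecidableEq α] (L : Finset α) (K : ℕ) :
    (L.powerset.filter (fun T => T.card ≤ K)).card ≤ (L.card + 1) ^ K := by
  induction K with
  | zero =>
    rw [pow_zero]
    refine Finset.card_le_one.2 fun a ha b hb => ?_
    have h1 := (Finset.mem_filter.1 ha).2
    have h2 := (Finset.mem_filter.1 hb).2
    rw [Nat.le_zero, Finset.card_eq_zero] at h1 h2
    rw [h1, h2]
  | succ K ih =>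
    have hsub : L.powerset.filter (fun T => T.card ≤ K + 1) ⊆
        L.powerset.filter (fun T => T.card ≤ K) ∪ L.powersetCard (K + 1) := by
      intro T hT
      rw [Finset.mem_filter, Finset.mem_powerset] at hT
      rw [Finset.mem_union, Finset.mem_filter, Finset.mem_powerset, Finset.mem_powersetCard]
      rcases Nat.lt_or_ge K T.card with h | h
      · right; exact ⟨hT.1, by omega⟩
      · left; exact ⟨hT.1, h⟩
    refine (Finset.card_le_card hsub).trans ((Finset.card_union_le _ _).trans ?_)
    rw [Finset.card_powersetCard]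
    have h1 : L.card.choose (K + 1) ≤ L.card * (L.card + 1) ^ K := by
      refine (Nat.choose_le_pow _ _).trans ?_
      rw [pow_succ, mul_comm]
      exact Nat.mul_le_mul_left _ (Nat.pow_le_pow_left (Nat.le_succ _) _)
    calc _ ≤ (L.card + 1) ^ K + L.card * (L.card + 1) ^ K := Nat.add_le_add ih h1
      _ = (L.card + 1) ^ (K + 1) := by ring

end Pool.Agent.H161R4
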