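import Pool.Agent.H161R4.Main
set_option autoImplicit false

namespace Pool.Agent.H161R4

open Finset Module

variable {m : ℕ}

/-- the exponent -/
def B : ℕ → ℕ → ℕ
  | 0, _ => 1
  | d + 1, s => 2 * (B d (2 * s) + 1) ^ 2 + (s + 1) * (B d (2 * s) + 1) + 1

theorem main (d : ℕ) : ∀ (s : ℕ) (Q : Finset (V m → ZMod 2)), Fac (2 ^ s) Q →
    (∀ f ∈ Q, Pol d f) → Q.card ≤ 2 ^ B d s := by
  classical
  induction d with
  | zero =>
    intro s Q _ hpol
    have hsub : Q ⊆ {fun _ => 0, fun _ => 1} := by
      intro f hf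
      have h := hpol f hf
      have h2 : ∀ c : ZMod 2, c = 0 ∨ c = 1 := by decide
      rw [Finset.mem_insert, Finset.mem_singleton]
      rcases h2 (f 0) with h0 | h0
      · left; funext x; rw [h x 0, h0]
      · right; funext x; rw [h x 0, h0]
    exact (Finset.card_le_card hsub).trans (Finset.card_le_two)
  | succ d ih =>
    intro s Q hfac hpol
    set b := B d (2 * s) with hb
    have hD : ∀ a, (Q.image (D a)).card ≤ 2 ^ b := by
      intro a
      refine ih (2 * s) _ ?_ ?_
      · have := hfac.D a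
        rwa [← pow_add, ← two_mul] at this
      · intro g hg
        obtain ⟨f, hf, rfl⟩ := Finset.mem_image.1 hg
        exact hpol f hf a
    have h1 := step (2 ^ s) (2 ^ b) (b + 1) Nat.one_le_two_pow (by rw [pow_succ, mul_comm]) Q hfac hD
    refine h1.trans ?_
    have e1 : 2 * 2 ^ b = 2 ^ (b + 1) := by rw [pow_succ, mul_comm]
    rw [e1, ← pow_add, ← pow_mul]
    have h2 : (2 ^ (s + (b + 1)) + 1) ^ (b + 1) ≤ 2 ^ ((s + (b + 1) + 1) * (b + 1)) := by
      rw [pow_mul]
      refine Nat.pow_le_pow_left ?_ _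
      have : 1 ≤ 2 ^ (s + (b + 1)) := Nat.one_le_two_pow
      rw [pow_succ]
      omega
    calc 2 ^ (b + 1) * ((2 ^ (s + (b + 1)) + 1) ^ (b + 1) * (2 * 2 ^ (b * (b + 1))))
        ≤ 2 ^ (b + 1) * (2 ^ ((s + (b + 1) + 1) * (b + 1)) * (2 ^ 1 * 2 ^ (b * (b + 1)))) := by
          rw [pow_one]
          exact Nat.mul_le_mul_left _ (Nat.mul_le_mul_right _ h2)
      _ = 2 ^ B (d + 1) s := by
          rw [← pow_add, ← pow_add, ← pow_add]
          congr 1
          simp only [B]
          rw [← hb]
          ring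

theorem B_ge (d : ℕ) : ∀ s, s + 1 ≤ B (d + 1) s + 1 := by
  intro s
  simp only [B]
  have h1 : (s + 1) * 1 ≤ (s + 1) * (B d (2 * s) + 1) := Nat.mul_le_mul_left _ (by omega)
  omega

/-- closed form -/
theorem B_le (d : ℕ) : ∀ s, 5 * (B (d + 1) s + 1) ≤ (60 * 2 ^ d * (s + 1)) ^ 2 ^ d := by
  induction d with
  | zero =>
    intro s
    simp only [B, pow_zero, pow_one]
    omega
  | succ d ih =>
    intro s
    set e := 2 ^ d with he
    set K := B (d + 1) (2 * s) + 1 with hK
    have h0 : s + 1 ≤ K := (by omega : s + 1 ≤ 2 * s + 1).trans (B_ge d (2 * s))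
    have h1 : 5 * K ≤ (60 * 2 ^ (d + 1) * (s + 1)) ^ e := by
      refine (ih (2 * s)).trans (Nat.pow_le_pow_left ?_ _)
      rw [pow_succ 2 d, ← he]
      nlinarith [Nat.zero_le e]
    have hB : B (d + 1 + 1) s = 2 * K ^ 2 + (s + 1) * K + 1 := rfl
    have h2 : B (d + 1 + 1) s + 1 ≤ 5 * K ^ 2 := by
      rw [hB]
      have h3 : (s + 1) * K ≤ K ^ 2 := by
        rw [sq]; exact Nat.mul_le_mul_right _ h0
      have h4 : 1 ≤ K ^ 2 := Nat.one_le_pow _ _ (by omega)
      omega
    calc 5 * (B (d + 1 + 1) s + 1) ≤ 5 * (5 * K ^ 2) := Nat.mul_le_mul_left _ h2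
      _ = (5 * K) ^ 2 := by ring
      _ ≤ ((60 * 2 ^ (d + 1) * (s + 1)) ^ e) ^ 2 := Nat.pow_le_pow_left h1 _
      _ = (60 * 2 ^ (d + 1) * (s + 1)) ^ 2 ^ (d + 1) := by
          rw [← pow_mul, he, pow_succ 2 d]

/-! rank factorisation -/

theorem rank_fac {X Y : Type} [Fintype X] [Fintype Y] (M : Matrix X Y ℝ) :
    ∃ (u : X → Fin M.rank → ℝ) (v : Y → Fin M.rank → ℝ), ∀ x y, M x y = ∑ i, u x i * v y i := by
  classical
  let W := LinearMap.range M.mulVecLin
  let b : Basis (Fin M.rank) ℝ W := Module.finBasis ℝ W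
  have hcol : ∀ y, M.mulVecLin (Pi.single y 1) ∈ W := fun y => ⟨_, rfl⟩
  refine ⟨fun x i => (b i : X → ℝ) x, fun y i => b.repr ⟨_, hcol y⟩ i, fun x y => ?_⟩
  have h1 := b.sum_repr ⟨M.mulVecLin (Pi.single y 1), hcol y⟩
  have h2 := congrArg (fun z : W => (z : X → ℝ) x) h1
  have hval : (M.mulVecLin (Pi.single y 1)) x = M x y := by
    simp [Matrix.mulVecLin_apply]
  have h3 : ∑ i, (b.repr ⟨M.mulVecLin (Pi.single y 1), hcol y⟩ i) * (b i : X → ℝ) x = M x y := by
    rw [← hval]
    simpa only [Submodule.coe_sum, Submodule.coe_smul, Finset.sum_apply, Pi.smul_apply,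
      smul_eq_mul] using h2
  rw [← h3]
  exact Finset.sum_congr rfl fun i _ => mul_comm _ _

/-- bit -/
def bit (b : Bool) : ZMod 2 := if b then 1 else 0

theorem bit_inj {a b : Bool} (h : bit a = bit b) : a = b := by
  revert a b; decide

theorem sgn_bit (b : Bool) : sgn (bit b) = 1 - 2 * (if b then (1 : ℝ) else 0) := by
  cases b <;> simp [sgn, bit] <;> norm_num

/-- few distinct columns -/
theorem columns {Y : Type} [Fintype Y] (d : ℕ) (F : V m → Y → Bool)
    (hF : ∀ y y', Pol d (fun x => bit (F x y) + bit (F x y'))) (s : ℕ)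
    (hs : (Matrix.of (fun (x : V m) (y : Y) => if F x y then (1 : ℝ) else 0)).rank + 1 ≤ 2 ^ s) :
    ∃ enc : Y → (Fin (B d s) → Bool), ∀ y y', enc y = enc y' → ∀ x, F x y = F x y' := by
  classical
  rcases isEmpty_or_nonempty Y with hY | ⟨⟨y₀⟩⟩
  · exact ⟨fun y => isEmptyElim y, fun y => isEmptyElim y⟩
  set M := Matrix.of (fun (x : V m) (y : Y) => if F x y then (1 : ℝ) else 0) with hM
  obtain ⟨u, v, huv⟩ := rank_fac M
  let q : Y → V m → ZMod 2 := fun y x => bit (F x y) + bit (F x y₀)
  let Q : Finset (V m → ZMod 2) := Finset.univ.image q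
  have hpre : ∀ f : V m → ZMod 2, ∃ y, f ∈ Q → q y = f := by
    intro f
    by_cases hf : f ∈ Q
    · obtain ⟨y, _, hy⟩ := Finset.mem_image.1 hf
      exact ⟨y, fun _ => hy⟩
    · exact ⟨y₀, fun h => absurd h hf⟩
  choose pre hpre using hpre
  have hfac : Fac (2 ^ s) Q := by
    refine ⟨Option (Fin M.rank), inferInstance,
      fun x i => Option.elim i (sgn (bit (F x y₀))) (fun j => -2 * u x j * sgn (bit (F x y₀))),
      fun f i => Option.elim i 1 (fun j => v (pre f) j), ?_, ?_⟩
    · rw [Fintype.card_option, Fintype.card_fin]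
      exact hs
    · intro f hf x
      have e : f x = bit (F x (pre f)) + bit (F x y₀) := (congrFun (hpre f hf) x).symm
      rw [e, sgn_add, sgn_bit (F x (pre f)), Fintype.sum_option]
      have h1 : (if F x (pre f) then (1 : ℝ) else 0) = ∑ i, u x i * v (pre f) i := huv x (pre f)
      rw [h1]
      simp only [Option.elim_none, Option.elim_some]
      rw [sub_mul, Finset.mul_sum, Finset.sum_mul, mul_one, one_mul, sub_eq_add_neg,
        ← Finset.sum_neg_distrib]
      congr 1
      refine Finset.sum_congr rfl fun i _ => by ring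
  have hQ := main d s Q hfac (by
    intro f hf
    obtain ⟨y, _, rfl⟩ := Finset.mem_image.1 hf
    exact hF y y₀)
  have hcard : Fintype.card Q ≤ Fintype.card (Fin (B d s) → Bool) := by
    rw [Fintype.card_coe, Fintype.card_fun, Fintype.card_bool, Fintype.card_fin]
    exact hQ
  obtain ⟨e⟩ := Function.Embedding.nonempty_of_card_le hcard
  refine ⟨fun y => e ⟨q y, Finset.mem_image_of_mem _ (Finset.mem_univ _)⟩, fun y y' h x => ?_⟩
  have h1 : q y = q y' := congrArg Subtype.val (e.injective h)
  have h2 := congrFun h1 x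
  exact bit_inj (add_right_cancel h2)

/-- protocols as in the frozen statement -/
def Prot {X Y : Type} (F : X → Y → Bool) (c : ℕ) : Prop :=
  ∃ (owner : List Bool → Bool) (a : List Bool → X → Bool) (b : List Bool → Y → Bool)
      (out : List Bool → Bool), ∀ x y, out (Nat.iterate
        (fun t : List Bool => t ++ [if owner t then a t x else b t y]) c []) = F x y

theorem Prot.swap {X Y : Type} {F : X → Y → Bool} {c : ℕ} (h : Prot F c) :
    Prot (fun y x => F x y) c := by
  obtain ⟨owner, a, b, out, h⟩ := h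
  refine ⟨fun t => !owner t, b, a, out, fun y x => ?_⟩
  change _ = F x y
  rw [← h x y]
  congr 2
  funext t
  have key : ∀ o p q : Bool, (if (!o) = true then p else q) = if o = true then q else p := by
    decide
  change t ++ [if (!owner t) = true then b t y else a t x] = _
  rw [key]

theorem oneway {X Y : Type} (F : X → Y → Bool) (n : ℕ) (enc : Y → (Fin n → Bool))
    (henc : ∀ y y', enc y = enc y' → ∀ x, F x y = F x y') : Prot F (n + 1) := by
  classical
  let g : Y → ℕ → Bool := fun y i => if h : i < n then enc y ⟨i, h⟩ else false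
  have hg : ∀ y y', List.map (g y) (List.range n) = List.map (g y') (List.range n) →
      enc y = enc y' := by
    intro y y' h
    funext i
    have h1 := List.map_inj_left.1 h i (List.mem_range.2 i.2)
    simpa [g, i.2] using h1
  refine ⟨fun t => decide (t.length = n),
    fun t x => if h : ∃ y, List.map (g y) (List.range n) = t then F x h.choose else false,
    fun t y => g y t.length, fun t => t.getLastD false, fun x y => ?_⟩
  set stp := (fun t : List Bool => t ++ [if decide (t.length = n) = true then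
    (if h : ∃ y, List.map (g y) (List.range n) = t then F x h.choose else false)
      else g y t.length]) with hstp
  have key : ∀ k ≤ n, stp^[k] [] = List.map (g y) (List.range k) := by
    intro k
    induction k with
    | zero => intro _; rfl
    | succ k ih =>
      intro hk
      rw [Function.iterate_succ_apply', ih (by omega), hstp]
      have h1 : (List.map (g y) (List.range k)).length = k := by simp
      simp only [h1]
      rw [if_neg (by simp; omega), List.range_succ, List.map_append]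
      rfl
  rw [Function.iterate_succ_apply', key n le_rfl, hstp]
  have h1 : (List.map (g y) (List.range n)).length = n := by simp
  simp only [h1, decide_true, if_true]
  have hex : ∃ y', List.map (g y') (List.range n) = List.map (g y) (List.range n) := ⟨y, rfl⟩
  rw [dif_pos hex]
  have h2 := henc _ _ (hg _ _ hex.choose_spec) x
  simp only [List.getLastD_concat]
  exact h2

/-- the numerical bound -/
theorem cost_le (d r : ℕ) :
    ((B (d + 1) (Nat.clog 2 (r + 1)) + 1 : ℕ) : ℝ) ≤
      (180 * 2 ^ d * (Real.logb 2 (r : ℝ) + 1)) ^ 2 ^ d := by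
  have h1 := B_le d (Nat.clog 2 (r + 1))
  have h2 : ((Nat.clog 2 (r + 1) : ℕ) : ℝ) + 1 ≤ 3 * (Real.logb 2 (r : ℝ) + 1) := by
    rcases Nat.eq_zero_or_pos r with rfl | hr
    · norm_num
    · have h3 : Nat.clog 2 (r + 1) ≤ Nat.log 2 r + 1 := by
        refine Nat.clog_le_of_le_pow ?_
        exact Nat.lt_pow_succ_log_self (by norm_num) r
      have h4 : ((Nat.log 2 r : ℕ) : ℝ) ≤ Real.logb 2 (r : ℝ) := Real.natLog_le_logb r 2
      have h5 : (0 : ℝ) ≤ Real.logb 2 (r : ℝ) :=
        Real.logb_nonneg (by norm_num) (by exact_mod_cast hr)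
      have h6 : ((Nat.clog 2 (r + 1) : ℕ) : ℝ) ≤ (Nat.log 2 r : ℕ) + 1 := by exact_mod_cast h3
      linarith
  have h3 : (0 : ℝ) ≤ Real.logb 2 (r : ℝ) + 1 := by
    have : (0 : ℝ) ≤ ((Nat.clog 2 (r + 1) : ℕ) : ℝ) + 1 := by positivity
    linarith
  have h4 : (5 : ℝ) * ((B (d + 1) (Nat.clog 2 (r + 1)) + 1 : ℕ) : ℝ) ≤
      (60 * 2 ^ d * (((Nat.clog 2 (r + 1) : ℕ) : ℝ) + 1)) ^ 2 ^ d := by exact_mod_cast h1
  have h5 : (60 * 2 ^ d * (((Nat.clog 2 (r + 1) : ℕ) : ℝ) + 1)) ^ 2 ^ d ≤
      (180 * 2 ^ d * (Real.logb 2 (r : ℝ) + 1)) ^ 2 ^ d := by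
    refine pow_le_pow_left₀ (by positivity) ?_ _
    have : (0 : ℝ) ≤ 60 * 2 ^ d := by positivity
    calc (60 * 2 ^ d * (((Nat.clog 2 (r + 1) : ℕ) : ℝ) + 1))
        ≤ 60 * 2 ^ d * (3 * (Real.logb 2 (r : ℝ) + 1)) := mul_le_mul_of_nonneg_left h2 this
      _ = 180 * 2 ^ d * (Real.logb 2 (r : ℝ) + 1) := by ring
  have h6 : (0 : ℝ) ≤ ((B (d + 1) (Nat.clog 2 (r + 1)) + 1 : ℕ) : ℝ) := by positivity
  linarith

/-- bounded degree in the first argument -/
theorem final {Y : Type} [Fintype Y] (d : ℕ) (F : V m → Y → Bool)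
    (hF : ∀ y y', Pol (d + 1) (fun x => bit (F x y) + bit (F x y'))) :
    ∃ c : ℕ, Prot F c ∧ (c : ℝ) ≤ (180 * 2 ^ d * (Real.logb 2
      ((Matrix.of (fun (x : V m) (y : Y) => if F x y then (1 : ℝ) else 0)).rank : ℝ) + 1)) ^ 2 ^ d := by
  set r := (Matrix.of (fun (x : V m) (y : Y) => if F x y then (1 : ℝ) else 0)).rank with hr
  obtain ⟨enc, henc⟩ := columns (d + 1) F hF (Nat.clog 2 (r + 1))
    (Nat.le_pow_clog (by norm_num) _)
  exact ⟨_, oneway F _ enc henc, cost_le d r⟩

/-- translations and slices of low degree functions -/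
theorem Pol.translate {G : Type} [AddCommGroup G] {d : ℕ} (c : G) :
    ∀ {f : G → ZMod 2}, Pol d f → Pol d (fun x => f (x + c)) := by
  induction d with
  | zero => intro f hf x y; exact hf _ _
  | succ d ih =>
    intro f hf a
    have e : D a (fun x => f (x + c)) = fun x => D a f (x + c) := by
      funext x
      simp only [D]
      rw [add_right_comm]
    rw [e]
    exact ih (hf a)

theorem Pol.comp {G H : Type} [AddCommGroup G] [AddCommGroup H] (φ : G →+ H) {d : ℕ} :
    ∀ {f : H → ZMod 2}, Pol d f → Pol d (fun x => f (φ x)) := by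
  induction d with
  | zero => intro f hf x y; exact hf _ _
  | succ d ih =>
    intro f hf a
    have e : D a (fun x => f (φ x)) = fun x => D (φ a) f (φ x) := by
      funext x
      simp only [D, map_add]
    rw [e]
    exact ih (hf (φ a))

/-- join two vectors -/
def join {n n' : ℕ} (x : Fin n → ZMod 2) (y : Fin n' → ZMod 2) : Fin n ⊕ Fin n' → ZMod 2 :=
  Sum.elim x y

/-- `x ↦ (x, 0)` -/
def φ (n n' : ℕ) : (Fin n → ZMod 2) →+ (Fin n ⊕ Fin n' → ZMod 2) where
  toFun := fun x => join x (0 : Fin n' → ZMod 2)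
  map_zero' := by funext i; rcases i with i | i <;> rfl
  map_add' := by intro a b; funext i; rcases i with i | i <;> simp [join]

/-- the difference of two slices has smaller degree -/
theorem pol_slice_diff {n n' d : ℕ} (P : MvPolynomial (Fin n ⊕ Fin n') (ZMod 2))
    (hP : P.totalDegree ≤ d + 1) (y y' : Fin n' → ZMod 2) :
    Pol d (fun x : Fin n → ZMod 2 => MvPolynomial.eval (Sum.elim x y) P +
      MvPolynomial.eval (Sum.elim x y') P) := by
  have h1 := pol_eval (d + 1) P hP (join (0 : Fin n → ZMod 2) (y + y'))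
  have h2 := h1.translate (join (0 : Fin n → ZMod 2) y)
  have h3 := Pol.comp (φ n n') h2
  have e : (fun x : Fin n → ZMod 2 => MvPolynomial.eval (Sum.elim x y) P +
      MvPolynomial.eval (Sum.elim x y') P) = fun x =>
      D (join (0 : Fin n → ZMod 2) (y + y')) (fun z => MvPolynomial.eval z P)
        (φ n n' x + join (0 : Fin n → ZMod 2) y) := by
    funext x
    have e1 : φ n n' x + join (0 : Fin n → ZMod 2) y = join x y := by
      funext i; rcases i with i | i <;> simp [φ, join]
    have e2 : join x y + join (0 : Fin n → ZMod 2) (y + y') = join x y' := by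
      funext i
      rcases i with i | i
      · simp [join]
      · simp only [join, Pi.add_apply, Sum.elim_inr]
        have := two_z (y i)
        linear_combination this
    rw [e1]
    change _ = MvPolynomial.eval (join x y + join (0 : Fin n → ZMod 2) (y + y')) P +
      MvPolynomial.eval (join x y) P
    rw [e2, add_comm]
    rfl
  rw [e]
  exact h3

end Pool.Agent.H161R4
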