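import Pool.Agent.H161R4.Count
set_option autoImplicit false

namespace Pool.Agent.H161R4

open Finset Module

variable {m : ℕ}

/-- factorisation of the sign matrix through dimension `r` -/
def Fac (r : ℕ) (Q : Finset (V m → ZMod 2)) : Prop :=
  ∃ (ι : Type) (_ : Fintype ι) (u : V m → ι → ℝ) (v : (V m → ZMod 2) → ι → ℝ),
    Fintype.card ι ≤ r ∧ ∀ f ∈ Q, ∀ x, sgn (f x) = ∑ i, u x i * v f i

theorem Fac.D [DecidableEq (V m → ZMod 2)] {r : ℕ} {Q : Finset (V m → ZMod 2)} (h : Fac r Q)
    (a : V m) : Fac (r * r) (Q.image (Pool.Agent.H161R4.D a)) := by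
  classical
  obtain ⟨ι, hι, u, v, hc, hf⟩ := h
  have hpre : ∀ g : V m → ZMod 2, ∃ f, g ∈ Q.image (Pool.Agent.H161R4.D a) →
      f ∈ Q ∧ Pool.Agent.H161R4.D a f = g := by
    intro g
    by_cases hg : g ∈ Q.image (Pool.Agent.H161R4.D a)
    · obtain ⟨f, h1, h2⟩ := Finset.mem_image.1 hg
      exact ⟨f, fun _ => ⟨h1, h2⟩⟩
    · exact ⟨g, fun h => absurd h hg⟩
  choose pre hpre using hpre
  refine ⟨ι × ι, inferInstance, fun x i => u (x + a) i.1 * u x i.2,
    fun g i => v (pre g) i.1 * v (pre g) i.2, ?_, ?_⟩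
  · rw [Fintype.card_prod]
    exact Nat.mul_le_mul hc hc
  · intro g hg x
    obtain ⟨h1, h2⟩ := hpre g hg
    have e : sgn (g x) = sgn (pre g (x + a)) * sgn (pre g x) := by
      rw [← sgn_add]
      exact congrArg sgn (congrFun h2 x).symm
    rw [e, hf _ h1, hf _ h1, Finset.sum_mul_sum, Fintype.sum_prod_type]
    refine Finset.sum_congr rfl fun i _ => Finset.sum_congr rfl fun j _ => ?_
    ring

/-- the sign function of `f + f₀` -/
noncomputable def G (f₀ f : V m → ZMod 2) : V m → ℝ := fun x => sgn (f x + f₀ x)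

theorem hat_linear (l : V m) (S : Set (V m → ℝ)) (hS : ∀ g ∈ S, hat g l = 0)
    (g : V m → ℝ) (hg : g ∈ Submodule.span ℝ S) : hat g l = 0 := by
  induction hg using Submodule.span_induction with
  | mem x hx => exact hS x hx
  | zero => simp [hat]
  | add x y _ _ hx hy =>
    have : hat (x + y) l = hat x l + hat y l := by
      simp only [hat, Pi.add_apply, add_mul, Finset.sum_add_distrib]
    rw [this, hx, hy, add_zero]
  | smul c x _ hx =>
    have : hat (c • x) l = c * hat x l := by
      simp only [hat, Pi.smul_apply, smul_eq_mul, Finset.mul_sum, mul_assoc]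
    rw [this, hx, mul_zero]

theorem per_inv {f f₀ : V m → ZMod 2} {a : V m} (ha : a ∈ per f f₀) (x : V m) :
    G f₀ f (x + a) = G f₀ f x := by
  have h := congrFun (Finset.mem_filter.1 ha).2 x
  simp only [D] at h
  unfold G
  congr 1
  have t1 := two_z (f x)
  have t2 := two_z (f₀ (x + a))
  linear_combination h - t1 + t2

theorem supp_ann {f f₀ : V m → ZMod 2} {l : V m} (hl : hat (G f₀ f) l ≠ 0) :
    l ∈ ann (per f f₀) := fun _ ha => hat_ne_zero (fun x => per_inv ha x) hl

theorem card_ann_per {f f₀ : V m → ZMod 2} {N : ℕ}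
    (h : Fintype.card (V m) ≤ 2 * N * (per f f₀).card) : Nat.card (ann (per f f₀)) ≤ 2 * N := by
  have hne : (per f f₀).Nonempty := by
    refine ⟨0, Finset.mem_filter.2 ⟨Finset.mem_univ _, ?_⟩⟩
    funext x
    simp only [D, add_zero]
    rw [two_z, two_z]
  have h1 := card_ann _ hne
  exact Nat.le_of_mul_le_mul_right (h1.trans h) hne.card_pos

/-- **One step**: few distinct derivatives in every direction and small rank imply few distinct
functions. -/
theorem step (r N K : ℕ) (hN : 1 ≤ N) (hNK : 2 * N ≤ 2 ^ K) (Q : Finset (V m → ZMod 2))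
    (hfac : Fac r Q) (hD : ∀ a, (Q.image (D a)).card ≤ N) :
    Q.card ≤ 2 * N * ((r * (2 * N) + 1) ^ K * (2 * N ^ K)) := by
  classical
  rcases Q.eq_empty_or_nonempty with rfl | hQ
  · simp
  obtain ⟨f₀, hf₀, hpop⟩ := popular Q hQ N hD
  set Q' := Q.filter (fun f => Fintype.card (V m) ≤ 2 * N * (per f f₀).card) with hQ'
  refine hpop.trans (Nat.mul_le_mul_left _ ?_)
  obtain ⟨ι, hι, u, v, hc, hf⟩ := hfac
  -- the span
  set S : Set (V m → ℝ) := (fun f => G f₀ f) '' (Q' : Set (V m → ZMod 2)) with hS
  let w : ι → V m → ℝ := fun i x => u x i * sgn (f₀ x)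
  have hSW : S ⊆ Submodule.span ℝ (Set.range w) := by
    rintro _ ⟨f, hfQ', rfl⟩
    have hfQ : f ∈ Q := (Finset.mem_filter.1 hfQ').1
    have e : G f₀ f = ∑ i, v f i • w i := by
      funext x
      rw [Finset.sum_apply]
      simp only [Pi.smul_apply, smul_eq_mul, w]
      unfold G
      rw [sgn_add, hf f hfQ x, Finset.sum_mul]
      refine Finset.sum_congr rfl fun i _ => by ring
    change G f₀ f ∈ _
    rw [e]
    exact Submodule.sum_mem _ fun i _ => Submodule.smul_mem _ _
      (Submodule.subset_span ⟨i, rfl⟩)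
  obtain ⟨b, hbS, hbspan, hbli⟩ := exists_linearIndependent ℝ S
  have hSfin : S.Finite := (Finset.finite_toSet Q').image _
  have hbfin : b.Finite := hSfin.subset hbS
  have hbcard : hbfin.toFinset.card ≤ r := by
    have : Fintype b := hbfin.fintype
    have h1 : finrank ℝ (Submodule.span ℝ b) = hbfin.toFinset.card := by
      rw [finrank_span_set_eq_card hbli, Set.Finite.card_toFinset, Set.toFinset_card]
    rw [← h1, hbspan]
    have h2 : Submodule.span ℝ S ≤ Submodule.span ℝ (Set.range w) := Submodule.span_le.2 hSW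
    have h3 : finrank ℝ (Submodule.span ℝ (Set.range w)) ≤ Fintype.card ι :=
      finrank_range_le_card w
    exact (Submodule.finrank_mono h2).trans (h3.trans hc)
  let L : Finset (V m) := hbfin.toFinset.biUnion
    (fun g => Finset.univ.filter (fun l => hat g l ≠ 0))
  have hL : L.card ≤ r * (2 * N) := by
    refine (Finset.card_biUnion_le).trans ?_
    calc ∑ g ∈ hbfin.toFinset, (Finset.univ.filter (fun l => hat g l ≠ 0)).card
        ≤ ∑ _g ∈ hbfin.toFinset, 2 * N := by
          refine Finset.sum_le_sum fun g hg => ?_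
          have hgS := hbS (hbfin.mem_toFinset.1 hg)
          obtain ⟨f, hfQ', rfl⟩ := hgS
          have h1 := card_ann_per (Finset.mem_filter.1 hfQ').2
          refine le_trans ?_ h1
          rw [Nat.subtype_card (Finset.univ.filter (fun l : V m => l ∈ ann (per f f₀)))
            (fun x => by simp)]
          refine Finset.card_le_card fun l hl => ?_
          rw [Finset.mem_filter] at hl ⊢
          exact ⟨hl.1, supp_ann hl.2⟩
      _ ≤ r * (2 * N) := by
          rw [Finset.sum_const, smul_eq_mul]
          exact Nat.mul_le_mul_right _ hbcard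
  have hsuppL : ∀ f ∈ Q', ∀ l, hat (G f₀ f) l ≠ 0 → l ∈ L := by
    intro f hfQ' l hl
    by_contra hnot
    refine hl (hat_linear l b (fun g hg => ?_) (G f₀ f) ?_)
    · by_contra hg0
      exact hnot (Finset.mem_biUnion.2 ⟨g, hbfin.mem_toFinset.2 hg,
        Finset.mem_filter.2 ⟨Finset.mem_univ _, hg0⟩⟩)
    · rw [hbspan]
      exact Submodule.subset_span ⟨f, hfQ', rfl⟩
  let 𝒯 := L.powerset.filter (fun T => T.card ≤ K)
  have hcover : Q' ⊆ 𝒯.biUnion (fun T => Q'.filter (fun f => ∀ z ∈ orthT T, Inv (f + f₀) z)) := by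
    intro f hfQ'
    set supp : Set (V m) := {l | hat (G f₀ f) l ≠ 0} with hsupp
    obtain ⟨T, hTs, hTspan, hTli⟩ := exists_linearIndependent (ZMod 2) supp
    have hTfin : T.Finite := Set.toFinite T
    have : Fintype T := hTfin.fintype
    have hTann : Submodule.span (ZMod 2) T ≤ ann (per f f₀) :=
      Submodule.span_le.2 fun l hl => supp_ann (hTs hl)
    have hTcard : hTfin.toFinset.card ≤ K := by
      have h1 : finrank (ZMod 2) (Submodule.span (ZMod 2) T) = hTfin.toFinset.card := by
        rw [finrank_span_set_eq_card hTli, Set.Finite.card_toFinset, Set.toFinset_card]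
      rw [← h1]
      refine (Submodule.finrank_mono hTann).trans ?_
      have h2 := card_ann_per (Finset.mem_filter.1 hfQ').2
      have h3 : Nat.card (ann (per f f₀)) = 2 ^ finrank (ZMod 2) (ann (per f f₀)) := by
        rw [Module.natCard_eq_pow_finrank (K := ZMod 2), Nat.card_zmod]
      rw [h3] at h2
      exact (Nat.pow_le_pow_iff_right (by norm_num)).1 (h2.trans hNK)
    refine Finset.mem_biUnion.2 ⟨hTfin.toFinset, Finset.mem_filter.2 ⟨?_, hTcard⟩,
      Finset.mem_filter.2 ⟨hfQ', ?_⟩⟩
    · rw [Finset.mem_powerset]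
      intro l hl
      exact hsuppL f hfQ' l (hTs (hTfin.mem_toFinset.1 hl))
    · intro z hz x
      rw [mem_orthT] at hz
      have hz1 : ∀ l ∈ supp, l ⬝ᵥ z = 0 := by
        intro l hl
        have h2 : Submodule.span (ZMod 2) T ≤ ann {z} := by
          refine Submodule.span_le.2 fun y hy => ?_
          intro a ha
          rw [Finset.mem_singleton] at ha
          rw [ha]
          exact hz y (hTfin.mem_toFinset.2 hy)
        have hl' : l ∈ Submodule.span (ZMod 2) T := by
          rw [hTspan]; exact Submodule.subset_span hl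
        exact h2 hl' z (Finset.mem_singleton_self z)
      have h1 : G f₀ f (x + z) = G f₀ f x := by
        have e1 := inversion (G f₀ f) (x + z)
        have e2 := inversion (G f₀ f) x
        have e3 : ∑ l, hat (G f₀ f) l * sgn (l ⬝ᵥ (x + z)) =
            ∑ l, hat (G f₀ f) l * sgn (l ⬝ᵥ x) := by
          refine Finset.sum_congr rfl fun l _ => ?_
          by_cases hl : hat (G f₀ f) l = 0
          · rw [hl, zero_mul, zero_mul]
          · rw [dotProduct_add, sgn_add, hz1 l hl, sgn_zero, mul_one]
        rw [e1, e2] at e3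
        have hV : (0 : ℝ) < Fintype.card (V m) := by exact_mod_cast Fintype.card_pos
        exact mul_left_cancel₀ hV.ne' e3
      exact sgn_inj h1
  refine (Finset.card_le_card hcover).trans (Finset.card_biUnion_le.trans ?_)
  calc ∑ T ∈ 𝒯, (Q'.filter (fun f => ∀ z ∈ orthT T, Inv (f + f₀) z)).card
      ≤ ∑ _T ∈ 𝒯, 2 * N ^ K := by
        refine Finset.sum_le_sum fun T hT => ?_
        refine count_Z _ f₀ (orthT T) K N hN
          ((codim_orthT T).trans (Finset.mem_filter.1 hT).2) (fun a => ?_) ?_
        · refine (Finset.card_le_card ?_).trans (hD a)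
          exact Finset.image_subset_image
            ((Finset.filter_subset _ _).trans (Finset.filter_subset _ _))
        · intro f hf z hz
          exact (Finset.mem_filter.1 hf).2 z hz
    _ = 𝒯.card * (2 * N ^ K) := by rw [Finset.sum_const, smul_eq_mul]
    _ ≤ (r * (2 * N) + 1) ^ K * (2 * N ^ K) := by
        refine Nat.mul_le_mul_right _ ((card_small L K).trans ?_)
        exact Nat.pow_le_pow_left (by omega) _

end Pool.Agent.H161R4
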