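import Mathlib
set_option autoImplicit false

namespace Pool.Agent.H161R4

open Finset

/-- derivative -/
def D {G : Type} [Add G] (a : G) (f : G → ZMod 2) : G → ZMod 2 := fun x => f (x + a) + f x

/-- polynomial of degree at most `d`: all `(d+1)`-fold derivatives vanish -/
def Pol {G : Type} [Add G] : ℕ → (G → ZMod 2) → Prop
  | 0, f => ∀ x y, f x = f y
  | d + 1, f => ∀ a, Pol d (D a f)

theorem two_z (a : ZMod 2) : a + a = 0 := by
  revert a; decide

section
variable {G : Type} [AddCommGroup G]

theorem Pol.add {d : ℕ} : ∀ {f g : G → ZMod 2}, Pol d f → Pol d g → Pol d (f + g) := by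
  induction d with
  | zero =>
    intro f g hf hg x y
    simp only [Pi.add_apply]
    rw [hf x y, hg x y]
  | succ d ih =>
    intro f g hf hg a
    have : D a (f + g) = D a f + D a g := by
      funext x
      simp only [D, Pi.add_apply]
      ring
    rw [this]
    exact ih (hf a) (hg a)

theorem Pol.mono {d : ℕ} : ∀ {f : G → ZMod 2}, Pol d f → Pol (d + 1) f := by
  induction d with
  | zero =>
    intro f hf a x y
    simp only [D]
    rw [hf (x + a) x, hf (y + a) y, two_z, two_z]
  | succ d ih =>
    intro f hf a
    exact ih (hf a)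

theorem Pol.mono' {d e : ℕ} (h : d ≤ e) {f : G → ZMod 2} (hf : Pol d f) : Pol e f := by
  induction h with
  | refl => exact hf
  | step _ ih => exact ih.mono

theorem Pol.const_mul {d : ℕ} (c : ZMod 2) :
    ∀ {f : G → ZMod 2}, Pol d f → Pol d (fun x => c * f x) := by
  induction d with
  | zero =>
    intro f hf x y
    simp only
    rw [hf x y]
  | succ d ih =>
    intro f hf a
    have : D a (fun x => c * f x) = fun x => c * D a f x := by
      funext x
      simp only [D]
      ring
    rw [this]
    exact ih (hf a)

theorem Pol.mul : ∀ (n a b : ℕ), a + b = n → ∀ {f g : G → ZMod 2}, Pol a f → Pol b g →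
    Pol (a + b) (fun x => f x * g x) := by
  intro n
  induction n using Nat.strong_induction_on with
  | _ n ih =>
    intro a b hab f g hf hg
    rcases a with _ | a
    · have : (fun x => f x * g x) = fun x => f 0 * g x := by
        funext x; rw [hf x 0]
      rw [this, zero_add]
      exact hg.const_mul _
    rcases b with _ | b
    · have : (fun x => f x * g x) = fun x => g 0 * f x := by
        funext x; rw [hg x 0, mul_comm]
      rw [this, add_zero]
      exact hf.const_mul _
    have e : a + 1 + (b + 1) = (a + b + 1) + 1 := by ring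
    rw [e]
    intro c
    have h1 : D c (fun x => f x * g x) = (fun x => D c f x * g x) + ((fun x => f x * D c g x) +
        fun x => D c f x * D c g x) := by
      funext x
      simp only [D, Pi.add_apply]
      have h2 := two_z (f x * g x)
      have h3 := two_z (f (x + c) * g x)
      have h4 := two_z (f x * g (x + c))
      linear_combination (-1 : ZMod 2) * h2 - h3 - h4
    rw [h1]
    refine Pol.add ?_ (Pol.add ?_ ?_)
    · have := ih (a + (b + 1)) (by omega) a (b + 1) rfl (hf c) hg
      rw [show a + b + 1 = a + (b + 1) by ring]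
      exact this
    · have := ih (a + 1 + b) (by omega) (a + 1) b rfl hf (hg c)
      rw [show a + b + 1 = a + 1 + b by ring]
      exact this
    · have := ih (a + b) (by omega) a b rfl (hf c) (hg c)
      exact this.mono

theorem Pol.pow {d : ℕ} {f : G → ZMod 2} (hf : Pol d f) (k : ℕ) :
    Pol (k * d) (fun x => f x ^ k) := by
  induction k with
  | zero =>
    rw [zero_mul]
    intro x y; simp
  | succ k ih =>
    have := Pol.mul (k * d + d) (k * d) d rfl ih hf
    have e : (fun x => f x ^ (k + 1)) = fun x => f x ^ k * f x := by
      funext x; rw [pow_succ]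
    rw [e, Nat.succ_mul]
    exact this

theorem Pol.prod {σ : Type} (s : Finset σ) (e : σ → ℕ) (f : σ → G → ZMod 2)
    (hf : ∀ i, Pol (e i) (f i)) : Pol (∑ i ∈ s, e i) (fun x => ∏ i ∈ s, f i x) := by
  classical
  induction s using Finset.induction_on with
  | empty => intro x y; simp
  | insert i s hi ih =>
    have := Pol.mul _ _ _ rfl (hf i) ih
    rw [Finset.sum_insert hi]
    have e : (fun x => ∏ j ∈ insert i s, f j x) = fun x => f i x * ∏ j ∈ s, f j x := by
      funext x; rw [Finset.prod_insert hi]
    rw [e]
    exact this

theorem Pol.sum {σ : Type} (s : Finset σ) (d : ℕ) (f : σ → G → ZMod 2)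
    (hf : ∀ i ∈ s, Pol d (f i)) : Pol d (fun x => ∑ i ∈ s, f i x) := by
  classical
  induction s using Finset.induction_on with
  | empty =>
    have : Pol 0 (fun _ : G => (0 : ZMod 2)) := fun _ _ => rfl
    simpa using this.mono' (Nat.zero_le d)
  | insert i s hi ih =>
    have e : (fun x => ∑ j ∈ insert i s, f j x) = f i + fun x => ∑ j ∈ s, f j x := by
      funext x; rw [Finset.sum_insert hi]; rfl
    rw [e]
    exact (hf i (Finset.mem_insert_self _ _)).add
      (ih fun j hj => hf j (Finset.mem_insert_of_mem hj))

/-- slices -/
theorem Pol.slice {H : Type} [AddCommGroup H] {d : ℕ} (y : H) :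
    ∀ {f : G × H → ZMod 2}, Pol d f → Pol d (fun x => f (x, y)) := by
  induction d with
  | zero => intro f hf x x'; exact hf _ _
  | succ d ih =>
    intro f hf a
    have := ih (hf (a, 0))
    have e : D a (fun x => f (x, y)) = fun x => D (a, (0 : H)) f (x, y) := by
      funext x
      simp [D]
    rw [e]
    exact this

end

/-- polynomials of total degree at most `d` -/
theorem pol_eval {σ : Type} (d : ℕ) (P : MvPolynomial σ (ZMod 2)) (hP : P.totalDegree ≤ d) :
    Pol d (fun x : σ → ZMod 2 => MvPolynomial.eval x P) := by
  have e : (fun x : σ → ZMod 2 => MvPolynomial.eval x P) = fun x => ∑ m ∈ P.support,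
      P.coeff m * ∏ i ∈ m.support, x i ^ m i := by
    funext x
    rw [MvPolynomial.eval_eq]
  rw [e]
  refine Pol.sum _ _ _ fun m hm => ?_
  refine Pol.const_mul _ ?_
  have h1 : Pol (∑ i ∈ m.support, m i) (fun x : σ → ZMod 2 => ∏ i ∈ m.support, x i ^ m i) := by
    refine Pol.prod _ _ (fun (i : σ) (x : σ → ZMod 2) => x i ^ m i) fun i => ?_
    have h2 : Pol 1 (fun x : σ → ZMod 2 => x i) := by
      intro a x y
      simp only [D, Pi.add_apply]
      have h3 := two_z (x i)
      have h4 := two_z (y i)
      linear_combination h3 - h4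
    have h3 := h2.pow (m i)
    rwa [mul_one] at h3
  refine h1.mono' ?_
  exact (MvPolynomial.le_totalDegree hm).trans hP

end Pool.Agent.H161R4
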