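import Pool.Agent.H161R4.Pol
set_option autoImplicit false

namespace Pool.Agent.H161R4

open Finset

/-- pairs in the same fibre (Cauchy–Schwarz) -/
theorem pairs {α β : Type} [DecidableEq β] (Q : Finset α) (g : α → β) (N : ℕ)
    (h : (Q.image g).card ≤ N) :
    Q.card ^ 2 ≤ N * ∑ f' ∈ Q, (Q.filter (fun f => g f = g f')).card := by
  have h1 : Q.card = ∑ b ∈ Q.image g, (Q.filter (fun f => g f = b)).card := by
    rw [Finset.card_eq_sum_card_image g Q]
  have h2 : ∑ f' ∈ Q, (Q.filter (fun f => g f = g f')).card =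
      ∑ b ∈ Q.image g, (Q.filter (fun f => g f = b)).card ^ 2 := by
    have := Finset.sum_comp (s := Q) (fun b => (Q.filter (fun f => g f = b)).card) g
    rw [this]
    refine Finset.sum_congr rfl fun b _ => ?_
    rw [smul_eq_mul, sq]
  rw [h2]
  calc Q.card ^ 2 = (∑ b ∈ Q.image g, (Q.filter (fun f => g f = b)).card) ^ 2 := by rw [← h1]
    _ ≤ (Q.image g).card * ∑ b ∈ Q.image g, (Q.filter (fun f => g f = b)).card ^ 2 :=
        sq_sum_le_card_mul_sum_sq
    _ ≤ N * ∑ b ∈ Q.image g, (Q.filter (fun f => g f = b)).card ^ 2 :=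
        Nat.mul_le_mul_right _ h

variable {m : ℕ}

/-- `F_2^m` -/
abbrev V (m : ℕ) := Fin m → ZMod 2

/-- common derivatives -/
def per (f g : V m → ZMod 2) : Finset (V m) :=
  Finset.univ.filter (fun a => D a f = D a g)

theorem centre (Q : Finset (V m → ZMod 2)) (hQ : Q.Nonempty) (N : ℕ)
    (h : ∀ a, (Q.image (D a)).card ≤ N) :
    ∃ f₀ ∈ Q, Fintype.card (V m) * Q.card ≤ N * ∑ f ∈ Q, (per f f₀).card := by
  classical
  have h1 : Fintype.card (V m) * Q.card ^ 2 ≤ N * ∑ f' ∈ Q, ∑ f ∈ Q, (per f f').card := by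
    calc Fintype.card (V m) * Q.card ^ 2 = ∑ _a : V m, Q.card ^ 2 := by
          rw [Finset.sum_const, Finset.card_univ, smul_eq_mul]
      _ ≤ ∑ a : V m, N * ∑ f' ∈ Q, (Q.filter (fun f => D a f = D a f')).card :=
          Finset.sum_le_sum fun a _ => pairs Q (D a) N (h a)
      _ = N * ∑ f' ∈ Q, ∑ f ∈ Q, (per f f').card := by
          rw [← Finset.mul_sum, Finset.sum_comm]
          congr 1
          refine Finset.sum_congr rfl fun f' _ => ?_
          simp only [per, Finset.card_filter]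
          rw [Finset.sum_comm]
  by_contra hno
  push Not at hno
  have h2 : N * ∑ f' ∈ Q, ∑ f ∈ Q, (per f f').card < Fintype.card (V m) * Q.card ^ 2 := by
    rw [Finset.mul_sum]
    calc ∑ f' ∈ Q, N * ∑ f ∈ Q, (per f f').card < ∑ _f' ∈ Q, Fintype.card (V m) * Q.card :=
          Finset.sum_lt_sum_of_nonempty hQ fun f' hf' => hno f' hf'
      _ = Fintype.card (V m) * Q.card ^ 2 := by
          rw [Finset.sum_const, smul_eq_mul]; ring
  omega

theorem popular (Q : Finset (V m → ZMod 2)) (hQ : Q.Nonempty) (N : ℕ)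
    (h : ∀ a, (Q.image (D a)).card ≤ N) :
    ∃ f₀ ∈ Q, Q.card ≤ 2 * N * (Q.filter (fun f =>
      Fintype.card (V m) ≤ 2 * N * (per f f₀).card)).card := by
  classical
  obtain ⟨f₀, hf₀, hc⟩ := centre Q hQ N h
  refine ⟨f₀, hf₀, ?_⟩
  set Q' := Q.filter (fun f => Fintype.card (V m) ≤ 2 * N * (per f f₀).card) with hQ'
  have hV : 0 < Fintype.card (V m) := Fintype.card_pos
  have h1 : 2 * N * ∑ f ∈ Q, (per f f₀).card ≤
      2 * N * (Fintype.card (V m) * Q'.card) + Fintype.card (V m) * Q.card := by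
    rw [← Finset.sum_filter_add_sum_filter_not Q (fun f =>
      Fintype.card (V m) ≤ 2 * N * (per f f₀).card), mul_add]
    refine Nat.add_le_add ?_ ?_
    · refine Nat.mul_le_mul_left _ ?_
      calc ∑ f ∈ Q', (per f f₀).card ≤ ∑ _f ∈ Q', Fintype.card (V m) :=
            Finset.sum_le_sum fun f _ => (Finset.card_le_univ _)
        _ = Fintype.card (V m) * Q'.card := by
            rw [Finset.sum_const, smul_eq_mul, mul_comm]
    · rw [Finset.mul_sum]
      calc ∑ f ∈ Q.filter (fun f => ¬ Fintype.card (V m) ≤ 2 * N * (per f f₀).card),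
            2 * N * (per f f₀).card
          ≤ ∑ _f ∈ Q.filter (fun f => ¬ Fintype.card (V m) ≤ 2 * N * (per f f₀).card),
            Fintype.card (V m) := by
            refine Finset.sum_le_sum fun f hf => ?_
            have := (Finset.mem_filter.1 hf).2
            omega
        _ ≤ Fintype.card (V m) * Q.card := by
            rw [Finset.sum_const, smul_eq_mul, mul_comm]
            exact Nat.mul_le_mul_left _ (Finset.card_filter_le _ _)
  have h2 : 2 * (Fintype.card (V m) * Q.card) ≤ 2 * N * ∑ f ∈ Q, (per f f₀).card := by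
    rw [mul_assoc 2 N]
    exact Nat.mul_le_mul_left 2 hc
  have h3 : Fintype.card (V m) * Q.card ≤ Fintype.card (V m) * (2 * N * Q'.card) := by
    have e : 2 * N * (Fintype.card (V m) * Q'.card) =
      Fintype.card (V m) * (2 * N * Q'.card) := by ring
    rw [e] at h1
    omega
  exact Nat.le_of_mul_le_mul_left h3 hV

/-! signs and characters -/

/-- `(-1)^a` -/
noncomputable def sgn (a : ZMod 2) : ℝ := if a = 0 then 1 else -1

theorem sgn_add (a b : ZMod 2) : sgn (a + b) = sgn a * sgn b := by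
  have h : ∀ a b : ZMod 2, (a + b = 0) ↔ ((a = 0) ↔ (b = 0)) := by decide
  unfold sgn
  by_cases ha : a = 0 <;> by_cases hb : b = 0 <;> simp [h, ha, hb]

theorem sgn_mul_self (a : ZMod 2) : sgn a * sgn a = 1 := by
  unfold sgn; split_ifs <;> norm_num

theorem sgn_inj {a b : ZMod 2} (h : sgn a = sgn b) : a = b := by
  have h2 : ∀ a b : ZMod 2, ((a = 0) ↔ (b = 0)) → a = b := by decide
  refine h2 a b ?_
  unfold sgn at h
  by_cases ha : a = 0 <;> by_cases hb : b = 0 <;> simp [ha, hb] at h ⊢ <;> norm_num at h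

theorem sgn_zero : sgn 0 = 1 := by simp [sgn]

/-- unnormalised Fourier coefficient -/
noncomputable def hat (G : V m → ℝ) (l : V m) : ℝ := ∑ x, G x * sgn (l ⬝ᵥ x)

theorem orth (l : V m) : ∑ x : V m, sgn (l ⬝ᵥ x) = if l = 0 then (Fintype.card (V m) : ℝ) else 0 := by
  classical
  split_ifs with h
  · subst h
    simp [sgn_zero]
  · obtain ⟨j, hj⟩ := Function.ne_iff.1 h
    have h1 : ∑ x : V m, sgn (l ⬝ᵥ x) = ∑ x : V m, sgn (l ⬝ᵥ (x + Pi.single j 1)) :=
      (Fintype.sum_equiv (Equiv.addRight (Pi.single j 1 : V m)) _ _ (fun x => rfl)).symm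
    have h2 : ∀ x : V m, sgn (l ⬝ᵥ (x + Pi.single j 1)) = - sgn (l ⬝ᵥ x) := by
      intro x
      rw [dotProduct_add, sgn_add]
      have h3 : l ⬝ᵥ (Pi.single j 1 : V m) = 1 := by
        rw [dotProduct_single, mul_one]
        have : ∀ a : ZMod 2, a ≠ 0 → a = 1 := by decide
        exact this _ hj
      rw [h3]
      simp [sgn]
    rw [Finset.sum_congr rfl (fun x _ => h2 x), Finset.sum_neg_distrib] at h1
    linarith

theorem inversion (G : V m → ℝ) (x : V m) :
    ∑ l, hat G l * sgn (l ⬝ᵥ x) = Fintype.card (V m) * G x := by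
  classical
  have h1 : ∀ l, hat G l * sgn (l ⬝ᵥ x) = ∑ y, G y * sgn ((y + x) ⬝ᵥ l) := by
    intro l
    unfold hat
    rw [Finset.sum_mul]
    refine Finset.sum_congr rfl fun y _ => ?_
    rw [mul_assoc, ← sgn_add, ← dotProduct_add, dotProduct_comm]
  rw [Finset.sum_congr rfl (fun l _ => h1 l), Finset.sum_comm]
  have h2 : ∀ y, ∑ l, G y * sgn ((y + x) ⬝ᵥ l) = if y = x then Fintype.card (V m) * G x else 0 := by
    intro y
    rw [← Finset.mul_sum, orth]
    have h3 : y + x = 0 ↔ y = x := by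
      constructor
      · intro h
        funext i
        have := congrFun h i
        simp only [Pi.add_apply, Pi.zero_apply] at this
        have h4 : ∀ a b : ZMod 2, a + b = 0 → a = b := by decide
        exact h4 _ _ this
      · rintro rfl
        funext i
        exact two_z _
    by_cases h : y = x
    · rw [if_pos (h3.2 h), if_pos h, h, mul_comm]
    · rw [if_neg (fun h' => h (h3.1 h')), if_neg h, mul_zero]
  rw [Finset.sum_congr rfl (fun y _ => h2 y), Finset.sum_ite_eq' Finset.univ x,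
    if_pos (Finset.mem_univ _)]

theorem hat_ne_zero {G : V m → ℝ} {a l : V m} (ha : ∀ x, G (x + a) = G x) (hl : hat G l ≠ 0) :
    l ⬝ᵥ a = 0 := by
  classical
  have h1 : hat G l = sgn (l ⬝ᵥ a) * hat G l := by
    conv_lhs => unfold hat
    rw [← Fintype.sum_equiv (Equiv.addRight a) (fun x => G (x + a) * sgn (l ⬝ᵥ (x + a)))
      (fun x => G x * sgn (l ⬝ᵥ x)) (fun x => rfl)]
    unfold hat
    rw [Finset.mul_sum]
    refine Finset.sum_congr rfl fun x _ => ?_
    rw [ha, dotProduct_add, sgn_add]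
    ring
  have h2 : sgn (l ⬝ᵥ a) = 1 := by
    have : (sgn (l ⬝ᵥ a) - 1) * hat G l = 0 := by linarith
    rcases mul_eq_zero.1 this with h | h
    · linarith
    · exact absurd h hl
  exact sgn_inj (h2.trans sgn_zero.symm)

/-- annihilator of a set -/
def ann (P : Finset (V m)) : Submodule (ZMod 2) (V m) where
  carrier := {l | ∀ a ∈ P, l ⬝ᵥ a = 0}
  add_mem' := by
    intro l l' h h' a ha
    rw [add_dotProduct, h a ha, h' a ha, add_zero]
  zero_mem' := by
    intro a _
    exact zero_dotProduct a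
  smul_mem' := by
    intro c l h a ha
    rw [smul_dotProduct, h a ha, smul_zero]

theorem mem_ann {P : Finset (V m)} {l : V m} : l ∈ ann P ↔ ∀ a ∈ P, l ⬝ᵥ a = 0 := Iff.rfl

theorem card_ann (P : Finset (V m)) (hP : P.Nonempty) :
    Nat.card (ann P) * P.card ≤ Fintype.card (V m) := by
  classical
  have h1 : ∑ l : V m, (∑ a ∈ P, sgn (l ⬝ᵥ a)) ^ 2 = Fintype.card (V m) * P.card := by
    have e : ∀ l : V m, (∑ a ∈ P, sgn (l ⬝ᵥ a)) ^ 2 = ∑ a ∈ P, ∑ b ∈ P, sgn ((a + b) ⬝ᵥ l) := by
      intro l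
      rw [sq, Finset.sum_mul_sum]
      refine Finset.sum_congr rfl fun a _ => Finset.sum_congr rfl fun b _ => ?_
      rw [← sgn_add, ← dotProduct_add, dotProduct_comm]
    rw [Finset.sum_congr rfl (fun l _ => e l), Finset.sum_comm]
    have e2 : ∀ a ∈ P, ∑ l : V m, ∑ b ∈ P, sgn ((a + b) ⬝ᵥ l) = Fintype.card (V m) := by
      intro a ha
      rw [Finset.sum_comm, Finset.sum_eq_single a]
      · rw [orth, if_pos]
        funext i
        exact two_z _
      · intro b _ hb
        rw [orth, if_neg]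
        intro h
        apply hb
        funext i
        have := congrFun h i
        simp only [Pi.add_apply, Pi.zero_apply] at this
        have h4 : ∀ a b : ZMod 2, a + b = 0 → b = a := by decide
        exact h4 _ _ this
      · intro h; exact absurd ha h
    rw [Finset.sum_congr rfl e2, Finset.sum_const, nsmul_eq_mul, mul_comm]
  have hset : Nat.card (ann P) = (Finset.univ.filter (fun l : V m => ∀ a ∈ P, l ⬝ᵥ a = 0)).card := by
    exact Nat.subtype_card _ (fun x => by simp [mem_ann])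
  set S := Finset.univ.filter (fun l : V m => ∀ a ∈ P, l ⬝ᵥ a = 0) with hS
  have h2 : (S.card : ℝ) * (P.card : ℝ) ^ 2 ≤ Fintype.card (V m) * P.card := by
    rw [← h1]
    calc (S.card : ℝ) * (P.card : ℝ) ^ 2 = ∑ l ∈ S, (∑ a ∈ P, sgn (l ⬝ᵥ a)) ^ 2 := by
          have e3 : ∀ l ∈ S, (∑ a ∈ P, sgn (l ⬝ᵥ a)) ^ 2 = (P.card : ℝ) ^ 2 := by
            intro l hl
            have hl' := (Finset.mem_filter.1 hl).2
            congr 1
            rw [Finset.sum_congr rfl (fun a ha => by rw [hl' a ha, sgn_zero])]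
            simp
          rw [Finset.sum_congr rfl e3, Finset.sum_const, nsmul_eq_mul]
      _ ≤ ∑ l : V m, (∑ a ∈ P, sgn (l ⬝ᵥ a)) ^ 2 :=
          Finset.sum_le_sum_of_subset_of_nonneg (Finset.subset_univ _)
            (fun _ _ _ => sq_nonneg _)
  rw [hset]
  have hPpos : (0 : ℝ) < P.card := by exact_mod_cast hP.card_pos
  have h3 : (S.card : ℝ) * P.card ≤ Fintype.card (V m) := by
    have : (S.card : ℝ) * P.card * P.card ≤ Fintype.card (V m) * P.card := by
      calc (S.card : ℝ) * P.card * P.card = (S.card : ℝ) * (P.card : ℝ) ^ 2 := by ring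
        _ ≤ _ := h2
    exact le_of_mul_le_mul_right this hPpos
  exact_mod_cast h3

end Pool.Agent.H161R4
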